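import Mathlib

/-!
A tree of disjoint annuli accumulating on a Cantor set of the real axis, and functions
supported on these annuli.
-/

open Set

namespace Pool.Agent.H77DF

/-- outer radii -/
noncomputable def R : ℕ → ℝ
  | 0 => 1
  | (k + 1) => R k * Real.exp (-(2 : ℝ) ^ (k + 6)) / 8

/-- inner radii -/
noncomputable def rho (k : ℕ) : ℝ := R k * Real.exp (-(2 : ℝ) ^ (k + 6))

/-- offsets of the centres -/
noncomputable def b (k : ℕ) : ℝ := rho k / 2

theorem R_succ (k : ℕ) : R (k + 1) = rho k / 8 := rfl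

theorem R_pos : ∀ k, 0 < R k
  | 0 => by norm_num [R]
  | (k + 1) => by
    have := R_pos k
    unfold R
    positivity

theorem rho_pos (k : ℕ) : 0 < rho k := mul_pos (R_pos k) (Real.exp_pos _)

theorem rho_lt (k : ℕ) : rho k < R k := by
  unfold rho
  have h1 : Real.exp (-(2 : ℝ) ^ (k + 6)) < 1 := by
    rw [Real.exp_lt_one_iff]
    have : (0 : ℝ) < 2 ^ (k + 6) := by positivity
    linarith
  nlinarith [R_pos k]

theorem R_le_one : ∀ k, R k ≤ 1
  | 0 => by norm_num [R]
  | (k + 1) => by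
    rw [R_succ]
    have h1 := R_le_one k
    have h2 := rho_lt k
    have h3 := rho_pos k
    linarith

theorem b_pos (k : ℕ) : 0 < b k := by unfold b; linarith [rho_pos k]

theorem R_succ_b (k : ℕ) : R (k + 1) = b k / 4 := by
  rw [R_succ]; unfold b; ring

/-- layers of the tree -/
noncomputable def layer {X : Type*} [AddCommGroup X] (g : ℕ → ℂ → X) : ℕ → ℕ → ℂ → X
  | k, 0, z => g k z
  | k, (n + 1), z => layer g (k + 1) n (z - (b k : ℂ)) + layer g (k + 1) n (z + (b k : ℂ))

/-- functions supported on the annuli -/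
def Ann {X : Type*} [AddCommGroup X] (g : ℕ → ℂ → X) : Prop :=
  ∀ k z, (‖z‖ ≤ rho k ∨ R k ≤ ‖z‖) → g k z = 0

theorem norm_sub_ge (z : ℂ) (k : ℕ) : ‖z‖ - b k ≤ ‖z - (b k : ℂ)‖ := by
  have h1 := norm_sub_norm_le z (b k : ℂ)
  rw [Complex.norm_real, Real.norm_eq_abs, abs_of_pos (b_pos k)] at h1
  exact h1

theorem norm_add_ge (z : ℂ) (k : ℕ) : ‖z‖ - b k ≤ ‖z + (b k : ℂ)‖ := by
  have h1 := norm_sub_norm_le z (-(b k : ℂ))
  rw [norm_neg, Complex.norm_real, Real.norm_eq_abs, abs_of_pos (b_pos k), sub_neg_eq_add] at h1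
  exact h1

theorem two_b_le (z : ℂ) (k : ℕ) : 2 * b k ≤ ‖z + (b k : ℂ)‖ + ‖z - (b k : ℂ)‖ := by
  have h1 := norm_sub_le (z + (b k : ℂ)) (z - (b k : ℂ))
  have h2 : (z + (b k : ℂ)) - (z - (b k : ℂ)) = ((2 * b k : ℝ) : ℂ) := by push_cast; ring
  rw [h2, Complex.norm_real, Real.norm_eq_abs, abs_of_pos (by linarith [b_pos k])] at h1
  exact h1

theorem layer_zero {X : Type*} [AddCommGroup X] {g : ℕ → ℂ → X} (hg : Ann g) (n : ℕ) :
    ∀ k z, R k ≤ ‖z‖ → layer g k n z = 0 := by
  induction n with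
  | zero =>
    intro k z hz
    exact hg k z (Or.inr hz)
  | succ n ih =>
    intro k z hz
    have h1 := norm_sub_ge z k
    have h2 := norm_add_ge z k
    have h3 := rho_lt k
    have h4 := rho_pos k
    have h5 : b k = rho k / 2 := rfl
    have h6 := R_succ k
    show layer g (k + 1) n (z - (b k : ℂ)) + layer g (k + 1) n (z + (b k : ℂ)) = 0
    rw [ih (k + 1) _ (by linarith), ih (k + 1) _ (by linarith), add_zero]

/-- the centres of the annuli of depth `n` below level `k` -/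
inductive Cent : ℕ → ℕ → ℝ → Prop
  | zero (k : ℕ) : Cent k 0 0
  | right {k n : ℕ} {c : ℝ} : Cent (k + 1) n c → Cent k (n + 1) (b k + c)
  | left {k n : ℕ} {c : ℝ} : Cent (k + 1) n c → Cent k (n + 1) (-b k + c)

theorem cent_bound {k n : ℕ} {c : ℝ} (h : Cent k n c) : |c| + R (k + n) ≤ R k := by
  induction h with
  | zero k => simp
  | @right k n c h ih =>
    have e : k + (n + 1) = k + 1 + n := by ring
    rw [e]
    have h1 : |b k + c| ≤ b k + |c| := by
      have := abs_add_le (b k) c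
      rwa [abs_of_pos (b_pos k)] at this
    have h3 := rho_lt k
    have h4 := rho_pos k
    have h5 : b k = rho k / 2 := rfl
    have h6 := R_succ k
    linarith
  | @left k n c h ih =>
    have e : k + (n + 1) = k + 1 + n := by ring
    rw [e]
    have h1 : |-b k + c| ≤ b k + |c| := by
      have := abs_add_le (-b k) c
      rwa [abs_neg, abs_of_pos (b_pos k)] at this
    have h3 := rho_lt k
    have h4 := rho_pos k
    have h5 : b k = rho k / 2 := rfl
    have h6 := R_succ k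
    linarith

theorem locate1 {k n : ℕ} {c : ℝ} (h : Cent k n c) :
    ∀ z : ℂ, rho (k + n) < ‖z - (c : ℂ)‖ → ‖z - (c : ℂ)‖ < R (k + n) →
      ∀ {X : Type} [AddCommGroup X] {g : ℕ → ℂ → X}, Ann g →
        layer g k n z = g (k + n) (z - (c : ℂ)) ∧ ∀ m, m ≠ n → layer g k m z = 0 := by
  induction h with
  | zero k =>
    intro z h1 h2 X _ g hg
    simp only [Complex.ofReal_zero, sub_zero, Nat.add_zero] at h1 h2 ⊢
    refine ⟨rfl, ?_⟩
    intro m hm
    obtain ⟨m', rfl⟩ : ∃ m', m = m' + 1 := ⟨m - 1, by omega⟩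
    have h3 := norm_sub_ge z k
    have h4 := norm_add_ge z k
    have h5 : b k = rho k / 2 := rfl
    have h6 := R_succ k
    have h7 := rho_pos k
    show layer g (k + 1) m' (z - (b k : ℂ)) + layer g (k + 1) m' (z + (b k : ℂ)) = 0
    rw [layer_zero hg m' (k + 1) _ (by linarith), layer_zero hg m' (k + 1) _ (by linarith),
      add_zero]
  | @right k n c h ih =>
    intro z h1 h2 X _ g hg
    have e : k + (n + 1) = k + 1 + n := by ring
    rw [e] at h1 h2 ⊢
    have e2 : z - ((b k + c : ℝ) : ℂ) = (z - (b k : ℂ)) - (c : ℂ) := by push_cast; ring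
    rw [e2] at h1 h2 ⊢
    obtain ⟨i1, i2⟩ := ih (z - (b k : ℂ)) h1 h2 hg
    have h3 : ‖z - (b k : ℂ)‖ < R (k + 1) := by
      have h4 := norm_le_norm_add_norm_sub' (z - (b k : ℂ)) (c : ℂ)
      have h5 := cent_bound h
      rw [Complex.norm_real, Real.norm_eq_abs] at h4
      linarith
    have h4 : R (k + 1) ≤ ‖z + (b k : ℂ)‖ := by
      have := two_b_le z k
      have := R_succ_b k
      have := b_pos k
      linarith
    have h5 : g k z = 0 := by
      apply hg
      left
      have h6 := norm_sub_ge z k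
      have h7 := R_succ_b k
      have h8 := b_pos k
      have h9 : b k = rho k / 2 := rfl
      linarith
    refine ⟨?_, ?_⟩
    · show layer g (k + 1) n (z - (b k : ℂ)) + layer g (k + 1) n (z + (b k : ℂ)) = _
      rw [i1, layer_zero hg n (k + 1) _ h4, add_zero]
    · intro m hm
      rcases Nat.eq_zero_or_pos m with hm0 | hm0
      · subst hm0; exact h5
      · obtain ⟨m', rfl⟩ : ∃ m', m = m' + 1 := ⟨m - 1, by omega⟩
        show layer g (k + 1) m' (z - (b k : ℂ)) + layer g (k + 1) m' (z + (b k : ℂ)) = 0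
        rw [i2 m' (by omega), layer_zero hg m' (k + 1) _ h4, add_zero]
  | @left k n c h ih =>
    intro z h1 h2 X _ g hg
    have e : k + (n + 1) = k + 1 + n := by ring
    rw [e] at h1 h2 ⊢
    have e2 : z - ((-b k + c : ℝ) : ℂ) = (z + (b k : ℂ)) - (c : ℂ) := by push_cast; ring
    rw [e2] at h1 h2 ⊢
    obtain ⟨i1, i2⟩ := ih (z + (b k : ℂ)) h1 h2 hg
    have h3 : ‖z + (b k : ℂ)‖ < R (k + 1) := by
      have h4 := norm_le_norm_add_norm_sub' (z + (b k : ℂ)) (c : ℂ)
      have h5 := cent_bound h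
      rw [Complex.norm_real, Real.norm_eq_abs] at h4
      linarith
    have h4 : R (k + 1) ≤ ‖z - (b k : ℂ)‖ := by
      have := two_b_le z k
      have := R_succ_b k
      have := b_pos k
      linarith
    have h5 : g k z = 0 := by
      apply hg
      left
      have h6 := norm_add_ge z k
      have h7 := R_succ_b k
      have h8 := b_pos k
      have h9 : b k = rho k / 2 := rfl
      linarith
    refine ⟨?_, ?_⟩
    · show layer g (k + 1) n (z - (b k : ℂ)) + layer g (k + 1) n (z + (b k : ℂ)) = _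
      rw [i1, layer_zero hg n (k + 1) _ h4, zero_add]
    · intro m hm
      rcases Nat.eq_zero_or_pos m with hm0 | hm0
      · subst hm0; exact h5
      · obtain ⟨m', rfl⟩ : ∃ m', m = m' + 1 := ⟨m - 1, by omega⟩
        show layer g (k + 1) m' (z - (b k : ℂ)) + layer g (k + 1) m' (z + (b k : ℂ)) = 0
        rw [i2 m' (by omega), layer_zero hg m' (k + 1) _ h4, add_zero]

theorem locate2 {X : Type} [AddCommGroup X] {g : ℕ → ℂ → X} (hg : Ann g) (n : ℕ) :
    ∀ (k : ℕ) (z : ℂ), (∀ n c, Cent k n c → ¬ (rho (k + n) < ‖z - (c : ℂ)‖ ∧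
      ‖z - (c : ℂ)‖ < R (k + n))) → layer g k n z = 0 := by
  induction n with
  | zero =>
    intro k z h
    have h1 := h 0 0 (Cent.zero k)
    simp only [Complex.ofReal_zero, sub_zero, Nat.add_zero] at h1
    apply hg
    by_contra hcon
    push Not at hcon
    exact h1 hcon
  | succ n ih =>
    intro k z h
    show layer g (k + 1) n (z - (b k : ℂ)) + layer g (k + 1) n (z + (b k : ℂ)) = 0
    rw [ih (k + 1), ih (k + 1), add_zero]
    · intro m c hc
      have h1 := h (m + 1) _ (Cent.left hc)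
      have e : k + (m + 1) = k + 1 + m := by ring
      have e2 : z - ((-b k + c : ℝ) : ℂ) = (z + (b k : ℂ)) - (c : ℂ) := by push_cast; ring
      rw [e, e2] at h1
      exact h1
    · intro m c hc
      have h1 := h (m + 1) _ (Cent.right hc)
      have e : k + (m + 1) = k + 1 + m := by ring
      have e2 : z - ((b k + c : ℝ) : ℂ) = (z - (b k : ℂ)) - (c : ℂ) := by push_cast; ring
      rw [e, e2] at h1
      exact h1

/-- `z` lies in the annulus of depth `n` around `c` -/
def InAnn (n : ℕ) (c : ℝ) (z : ℂ) : Prop :=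
  Cent 0 n c ∧ rho n < ‖z - (c : ℂ)‖ ∧ ‖z - (c : ℂ)‖ < R n

theorem layer_in {X : Type} [AddCommGroup X] {g : ℕ → ℂ → X} (hg : Ann g) {n : ℕ} {c : ℝ} {z : ℂ}
    (h : InAnn n c z) : layer g 0 n z = g n (z - (c : ℂ)) ∧ ∀ m, m ≠ n → layer g 0 m z = 0 := by
  obtain ⟨h1, h2, h3⟩ := h
  have := locate1 h1 z (by rwa [Nat.zero_add]) (by rwa [Nat.zero_add]) hg
  rwa [Nat.zero_add] at this

theorem layer_out {X : Type} [AddCommGroup X] {g : ℕ → ℂ → X} (hg : Ann g) {z : ℂ}
    (h : ¬ ∃ n c, InAnn n c z) (m : ℕ) : layer g 0 m z = 0 := by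
  apply locate2 hg
  intro n c hc hcon
  rw [Nat.zero_add] at hcon
  exact h ⟨n, c, hc, hcon⟩

theorem tsum_in {X : Type} [AddCommGroup X] [TopologicalSpace X] {g : ℕ → ℂ → X} (hg : Ann g)
    {n : ℕ} {c : ℝ} {z : ℂ} (h : InAnn n c z) : ∑' m, layer g 0 m z = g n (z - (c : ℂ)) := by
  obtain ⟨h1, h2⟩ := layer_in hg h
  rw [tsum_eq_single n h2, h1]

theorem tsum_out {X : Type} [AddCommGroup X] [TopologicalSpace X] {g : ℕ → ℂ → X} (hg : Ann g)
    {z : ℂ} (h : ¬ ∃ n c, InAnn n c z) : ∑' m, layer g 0 m z = 0 := by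
  have : ∀ m, layer g 0 m z = 0 := layer_out hg h
  simp [this]

theorem sum_in {X : Type} [AddCommGroup X] {g : ℕ → ℂ → X} (hg : Ann g)
    {n : ℕ} {c : ℝ} {z : ℂ} (h : InAnn n c z) (N : ℕ) :
    ∑ m ∈ Finset.range N, layer g 0 m z = if n < N then g n (z - (c : ℂ)) else 0 := by
  obtain ⟨h1, h2⟩ := layer_in hg h
  split_ifs with hN
  · rw [Finset.sum_eq_single n (fun m _ hm => h2 m hm)
      (fun hn => absurd (Finset.mem_range.mpr hN) hn), h1]
  · apply Finset.sum_eq_zero
    intro m hm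
    apply h2
    rw [Finset.mem_range] at hm
    omega

theorem sum_out {X : Type} [AddCommGroup X] {g : ℕ → ℂ → X} (hg : Ann g)
    {z : ℂ} (h : ¬ ∃ n c, InAnn n c z) (N : ℕ) :
    ∑ m ∈ Finset.range N, layer g 0 m z = 0 :=
  Finset.sum_eq_zero (fun m _ => layer_out hg h m)

theorem layer_bound {X : Type} [NormedAddCommGroup X] {g : ℕ → ℂ → X} (hg : Ann g) {B : ℕ → ℝ}
    (hB : ∀ k z, ‖g k z‖ ≤ B k) (m : ℕ) (z : ℂ) : ‖layer g 0 m z‖ ≤ B m := by
  have hB0 : 0 ≤ B m := le_trans (norm_nonneg _) (hB m 0)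
  by_cases h : ∃ n c, InAnn n c z
  · obtain ⟨n, c, h⟩ := h
    obtain ⟨h1, h2⟩ := layer_in hg h
    by_cases hm : m = n
    · subst hm; rw [h1]; exact hB _ _
    · rw [h2 m hm, norm_zero]; exact hB0
  · rw [layer_out hg h, norm_zero]; exact hB0

end Pool.Agent.H77DF
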