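import Mathlib

/-!
`C^1` curves in the plane and homeomorphisms preserving them.
-/

open Set

namespace Pool.Agent.H77DF

/-- a `C^1` curve in the plane: the image of a 1-periodic `C^1` map with nonvanishing derivative
which is injective on one period -/
def IsC1Curve (C : Set ℂ) : Prop :=
  ∃ γ : ℝ → ℂ, ContDiff ℝ 1 γ ∧ (∀ t, deriv γ t ≠ 0) ∧ (∀ t, γ (t + 1) = γ t) ∧
    InjOn γ (Ico 0 1) ∧ range γ = C

/-- the group `Homeo^1` of the plane: `f` and its inverse both map every `C^1` curve onto a `C^1`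
curve -/
def MemHomeo1 (f : ℂ ≃ₜ ℂ) : Prop :=
  (∀ C : Set ℂ, IsC1Curve C → IsC1Curve (f '' C)) ∧
    (∀ C : Set ℂ, IsC1Curve C → IsC1Curve (f.symm '' C))

end Pool.Agent.H77DF
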