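import Mathlib
import Pool.Agent.H77DF.Basic

/-!
The map given by a profile and its action on paths.
-/

open Set Filter Topology MeasureTheory

namespace Pool.Agent.H77DF

/-- profiles: the map multiplies `z - c` by `exp (h k (log |z - c|))` on the annulus of level `k` -/
structure Prof (h h' : ℕ → ℝ → ℝ) : Prop where
  deriv : ∀ k y, HasDerivAt (h k) (h' k y) y
  cont : ∀ k, Continuous (h' k)
  bd : ∀ k y, |h k y| ≤ 1
  bd' : ∀ k y, |h' k y| ≤ (1 / 4) * (1 / 2) ^ k
  supp : ∀ k y, (y ≤ Real.log (rho k) ∨ Real.log (R k) ≤ y) → h k y = 0 ∧ h' k y = 0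

/-- conformal factor -/
noncomputable def ex (h : ℕ → ℝ → ℝ) (k : ℕ) (z : ℂ) : ℝ := Real.exp (h k (Real.log ‖z‖))

/-- displacement -/
noncomputable def w (h : ℕ → ℝ → ℝ) (k : ℕ) (z : ℂ) : ℂ := ((ex h k z - 1 : ℝ) : ℂ) * z

/-- orthogonal projection to the line through `z` -/
noncomputable def proj (z v : ℂ) : ℂ := ((inner ℝ z v / ‖z‖ ^ 2 : ℝ) : ℂ) * z

/-- non-conformal part -/
noncomputable def Q (h' : ℕ → ℝ → ℝ) (k : ℕ) (z v : ℂ) : ℂ :=
  ((h' k (Real.log ‖z‖) : ℝ) : ℂ) * proj z v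

/-- derivative of the displacement -/
noncomputable def D (h h' : ℕ → ℝ → ℝ) (k : ℕ) (z v : ℂ) : ℂ :=
  ((ex h k z - 1 : ℝ) : ℂ) * v + ((ex h k z : ℝ) : ℂ) * Q h' k z v

theorem proj_norm (z v : ℂ) : ‖proj z v‖ ≤ ‖v‖ := by
  unfold proj
  rw [norm_mul, Complex.norm_real, Real.norm_eq_abs, abs_div, abs_of_nonneg (sq_nonneg ‖z‖)]
  rcases eq_or_ne z 0 with rfl | hz
  · simp
  · have hz' : 0 < ‖z‖ := norm_pos_iff.mpr hz
    have h1 : |inner ℝ z v| ≤ ‖z‖ * ‖v‖ := abs_real_inner_le_norm z v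
    rw [div_mul_eq_mul_div, div_le_iff₀ (by positivity)]
    nlinarith [norm_nonneg v]

variable {h h' : ℕ → ℝ → ℝ}

theorem small_supp (P : Prof h h') {k : ℕ} {z : ℂ} (hz : ‖z‖ ≤ rho k ∨ R k ≤ ‖z‖) :
    h k (Real.log ‖z‖) = 0 ∧ h' k (Real.log ‖z‖) = 0 := by
  apply P.supp
  rcases hz with hz | hz
  · rcases (norm_nonneg z).eq_or_lt with h0 | h0
    · right
      rw [← h0, Real.log_zero]
      exact Real.log_nonpos (R_pos k).le (R_le_one k)
    · left
      exact Real.log_le_log h0 hz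
  · right
    exact Real.log_le_log (R_pos k) hz

theorem ann_ex (P : Prof h h') : Ann (fun k z => ex h k z - 1) := by
  intro k z hz
  simp [ex, (small_supp P hz).1]

theorem ann_w (P : Prof h h') : Ann (w h) := by
  intro k z hz
  simp [w, ex, (small_supp P hz).1]

theorem ann_Q (P : Prof h h') (v : ℂ) : Ann (fun k z => Q h' k z v) := by
  intro k z hz
  simp [Q, (small_supp P hz).2]

theorem ann_D (P : Prof h h') (v : ℂ) : Ann (fun k z => D h h' k z v) := by
  intro k z hz
  simp [D, Q, ex, (small_supp P hz).2, (small_supp P hz).1]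

theorem log_cont {z : ℂ} (hz : z ≠ 0) : ContinuousAt (fun z : ℂ => Real.log ‖z‖) z :=
  ContinuousAt.log continuous_norm.continuousAt (norm_ne_zero_iff.mpr hz)

theorem ev_small {z : ℂ} (k : ℕ) (hz : z = 0) : ∀ᶠ y : ℂ in 𝓝 z, ‖y‖ ≤ rho k := by
  have h1 : Tendsto (fun y : ℂ => ‖y‖) (𝓝 z) (𝓝 ‖z‖) := continuous_norm.continuousAt
  rw [hz, norm_zero] at h1
  rw [hz]
  exact (h1.eventually (gt_mem_nhds (rho_pos k))).mono (fun y hy => le_of_lt hy)

theorem ex_continuous (P : Prof h h') (k : ℕ) : Continuous (ex h k) := by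
  rw [continuous_iff_continuousAt]
  intro z
  by_cases hz : z = 0
  · have h1 : ex h k =ᶠ[𝓝 z] fun _ => 1 := by
      filter_upwards [ev_small k hz] with y hy
      simp [ex, (small_supp P (Or.inl hy)).1]
    exact (continuousAt_const.congr h1.symm)
  · have h1 : ContinuousAt (h k) (Real.log ‖z‖) := (P.deriv k _).continuousAt
    exact Real.continuous_exp.continuousAt.comp
      (ContinuousAt.comp (f := fun z : ℂ => Real.log ‖z‖) (g := h k) h1 (log_cont hz))

theorem Q_continuous (P : Prof h h') (k : ℕ) :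
    Continuous (fun p : ℂ × ℂ => Q h' k p.1 p.2) := by
  rw [continuous_iff_continuousAt]
  intro p
  by_cases hz : p.1 = 0
  · have h1 : (fun p : ℂ × ℂ => Q h' k p.1 p.2) =ᶠ[𝓝 p] fun _ => 0 := by
      have h2 : ∀ᶠ q : ℂ × ℂ in 𝓝 p, ‖q.1‖ ≤ rho k :=
        continuous_fst.continuousAt.eventually (ev_small k hz)
      filter_upwards [h2] with y hy
      simp [Q, (small_supp P (Or.inl hy)).2]
    exact (continuousAt_const.congr h1.symm)
  · have h1 : ContinuousAt (fun p : ℂ × ℂ => h' k (Real.log ‖p.1‖)) p :=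
      (P.cont k).continuousAt.comp
        (ContinuousAt.comp (f := Prod.fst) (g := fun z : ℂ => Real.log ‖z‖) (log_cont hz)
          continuous_fst.continuousAt)
    have h2 : ContinuousAt (fun p : ℂ × ℂ => inner ℝ p.1 p.2 / ‖p.1‖ ^ 2) p := by
      apply ContinuousAt.div
      · exact (continuous_fst.inner continuous_snd).continuousAt
      · exact (continuous_fst.norm.pow 2).continuousAt
      · exact pow_ne_zero 2 (norm_ne_zero_iff.mpr hz)
    unfold Q proj
    exact (Complex.continuous_ofReal.continuousAt.comp h1).mul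
      ((Complex.continuous_ofReal.continuousAt.comp h2).mul continuous_fst.continuousAt)

theorem D_continuous (P : Prof h h') (k : ℕ) :
    Continuous (fun p : ℂ × ℂ => D h h' k p.1 p.2) := by
  unfold D
  have h1 := (ex_continuous P k).comp (continuous_fst (X := ℂ) (Y := ℂ))
  exact ((Complex.continuous_ofReal.comp (h1.sub continuous_const)).mul continuous_snd).add
    ((Complex.continuous_ofReal.comp h1).mul (Q_continuous P k))

theorem layer_cont2 {g : ℕ → ℂ → ℂ → ℂ} (hg : ∀ k, Continuous (fun p : ℂ × ℂ => g k p.1 p.2))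
    (n : ℕ) : ∀ k, Continuous (fun p : ℂ × ℂ => layer (fun k z => g k z p.2) k n p.1) := by
  induction n with
  | zero => intro k; exact hg k
  | succ n ih =>
    intro k
    have h1 := (ih (k + 1)).comp
      (((continuous_fst (X := ℂ) (Y := ℂ)).sub (continuous_const (y := (b k : ℂ)))).prodMk
        (continuous_snd (X := ℂ) (Y := ℂ)))
    have h2 := (ih (k + 1)).comp
      (((continuous_fst (X := ℂ) (Y := ℂ)).add (continuous_const (y := (b k : ℂ)))).prodMk
        (continuous_snd (X := ℂ) (Y := ℂ)))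
    exact h1.add h2

theorem layer_cont1 {g : ℕ → ℂ → ℝ} (hg : ∀ k, Continuous (g k))
    (n : ℕ) : ∀ k, Continuous (layer g k n) := by
  induction n with
  | zero => intro k; exact hg k
  | succ n ih =>
    intro k
    exact ((ih (k + 1)).comp (continuous_id.sub continuous_const)).add
      ((ih (k + 1)).comp (continuous_id.add continuous_const))

theorem w_hasDeriv (P : Prof h h') (k : ℕ) {γ : ℝ → ℂ} {v : ℂ} {t : ℝ} (hγ : HasDerivAt γ v t) :
    HasDerivAt (fun s => w h k (γ s)) (D h h' k (γ t) v) t := by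
  by_cases hz : γ t = 0
  · have h1 : (fun s => w h k (γ s)) =ᶠ[𝓝 t] fun _ => 0 := by
      filter_upwards [hγ.continuousAt.eventually (ev_small k hz)] with s hs
      simp [w, ex, (small_supp P (Or.inl hs)).1]
    have h2 : D h h' k (γ t) v = 0 := ann_D P v k _ (Or.inl (by rw [hz, norm_zero]; exact (rho_pos k).le))
    rw [h2]
    exact (hasDerivAt_const t (0 : ℂ)).congr_of_eventuallyEq h1
  · have hz' : ‖γ t‖ ≠ 0 := norm_ne_zero_iff.mpr hz
    have h1 : HasDerivAt (fun s => ‖γ s‖ ^ 2) (2 * inner ℝ (γ t) v) t := hγ.norm_sq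
    have h2 : HasDerivAt (fun s => Real.log ‖γ s‖) (inner ℝ (γ t) v / ‖γ t‖ ^ 2) t := by
      have h3 := (h1.log (pow_ne_zero 2 hz')).div_const 2
      have h4 : (fun s => Real.log (‖γ s‖ ^ 2) / 2) = fun s => Real.log ‖γ s‖ := by
        funext s; rw [Real.log_pow]; push_cast; ring
      rw [h4] at h3
      refine h3.congr_deriv ?_
      ring
    have h3 : HasDerivAt (fun s => ex h k (γ s))
        (ex h k (γ t) * (h' k (Real.log ‖γ t‖) * (inner ℝ (γ t) v / ‖γ t‖ ^ 2))) t := by
      have h4 := ((P.deriv k (Real.log ‖γ t‖)).comp t h2).exp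
      exact h4
    have h5 := ((h3.sub_const 1).ofReal_comp).mul hγ
    refine h5.congr_deriv ?_
    unfold D Q proj
    push_cast
    ring

theorem layer_hasDeriv (P : Prof h h') (n : ℕ) : ∀ (k : ℕ) {γ : ℝ → ℂ} {v : ℂ} {t : ℝ},
    HasDerivAt γ v t → HasDerivAt (fun s => layer (w h) k n (γ s))
      (layer (fun k z => D h h' k z v) k n (γ t)) t := by
  induction n with
  | zero => intro k γ v t hγ; exact w_hasDeriv P k hγ
  | succ n ih =>
    intro k γ v t hγ
    exact (ih (k + 1) (hγ.sub_const (b k : ℂ))).add (ih (k + 1) (hγ.add_const (b k : ℂ)))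

/-- the map -/
noncomputable def F (h : ℕ → ℝ → ℝ) (z : ℂ) : ℂ := z + ∑' m, layer (w h) 0 m z

/-- the conformal factor -/
noncomputable def lam (h : ℕ → ℝ → ℝ) (z : ℂ) : ℝ :=
  1 + ∑' m, layer (fun k z => ex h k z - 1) 0 m z

/-- the normalised derivative -/
noncomputable def Vf (h' : ℕ → ℝ → ℝ) (z v : ℂ) : ℂ :=
  v + ∑' m, layer (fun k z => Q h' k z v) 0 m z

theorem Q_bound (P : Prof h h') (k : ℕ) (z v : ℂ) :
    ‖Q h' k z v‖ ≤ (1 / 4) * (1 / 2) ^ k * ‖v‖ := by
  unfold Q
  rw [norm_mul, Complex.norm_real, Real.norm_eq_abs]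
  exact mul_le_mul (P.bd' k _) (proj_norm z v) (norm_nonneg _) (by positivity)

theorem Vf_continuous (P : Prof h h') : Continuous (fun p : ℂ × ℂ => Vf h' p.1 p.2) := by
  have key : ∀ M : ℝ, ContinuousOn (fun p : ℂ × ℂ => ∑' m, layer (fun k z => Q h' k z p.2) 0 m p.1)
      {p | ‖p.2‖ ≤ M} := by
    intro M
    apply continuousOn_tsum (u := fun m => (1 / 4) * (1 / 2 : ℝ) ^ m * M)
    · intro m
      exact (layer_cont2 (Q_continuous P) m 0).continuousOn
    · exact (summable_geometric_two.mul_left (1 / 4)).mul_right M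
    · intro m p hp
      refine (layer_bound (ann_Q P p.2) (B := fun k => (1 / 4) * (1 / 2) ^ k * ‖p.2‖)
        (fun k z => Q_bound P k z p.2) m p.1).trans ?_
      exact mul_le_mul_of_nonneg_left hp (by positivity)
  unfold Vf
  apply continuous_snd.add
  rw [continuous_iff_continuousAt]
  intro p
  refine (key (‖p.2‖ + 1)).continuousAt ?_
  have h1 : ∀ᶠ q : ℂ × ℂ in 𝓝 p, ‖q.2‖ < ‖p.2‖ + 1 :=
    (continuous_snd.norm.continuousAt (x := p)).eventually (gt_mem_nhds (by linarith))
  exact h1.mono (fun q hq => le_of_lt hq)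

theorem lam_in (P : Prof h h') {n : ℕ} {c : ℝ} {z : ℂ} (hz : InAnn n c z) :
    lam h z = ex h n (z - (c : ℂ)) := by
  unfold lam
  rw [tsum_in (ann_ex P) hz]
  ring

theorem lam_out (P : Prof h h') {z : ℂ} (hz : ¬ ∃ n c, InAnn n c z) : lam h z = 1 := by
  unfold lam
  rw [tsum_out (ann_ex P) hz]
  ring

theorem Vf_in (P : Prof h h') {n : ℕ} {c : ℝ} {z : ℂ} (hz : InAnn n c z) (v : ℂ) :
    Vf h' z v = v + Q h' n (z - (c : ℂ)) v := by
  unfold Vf
  rw [tsum_in (ann_Q P v) hz]

theorem Vf_out (P : Prof h h') {z : ℂ} (hz : ¬ ∃ n c, InAnn n c z) (v : ℂ) : Vf h' z v = v := by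
  unfold Vf
  rw [tsum_out (ann_Q P v) hz]
  ring

theorem F_in (P : Prof h h') {n : ℕ} {c : ℝ} {z : ℂ} (hz : InAnn n c z) :
    F h z = c + ((ex h n (z - (c : ℂ)) : ℝ) : ℂ) * (z - (c : ℂ)) := by
  unfold F
  rw [tsum_in (ann_w P) hz]
  unfold w
  push_cast
  ring

theorem F_out (P : Prof h h') {z : ℂ} (hz : ¬ ∃ n c, InAnn n c z) : F h z = z := by
  unfold F
  rw [tsum_out (ann_w P) hz]
  ring

theorem ex_bounds (P : Prof h h') (k : ℕ) (z : ℂ) :
    Real.exp (-1) ≤ ex h k z ∧ ex h k z ≤ Real.exp 1 := by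
  have := abs_le.mp (P.bd k (Real.log ‖z‖))
  exact ⟨Real.exp_le_exp.mpr this.1, Real.exp_le_exp.mpr this.2⟩

theorem lam_bounds (P : Prof h h') (z : ℂ) : Real.exp (-1) ≤ lam h z ∧ lam h z ≤ Real.exp 1 := by
  by_cases hz : ∃ n c, InAnn n c z
  · obtain ⟨n, c, hz⟩ := hz
    rw [lam_in P hz]
    exact ex_bounds P _ _
  · rw [lam_out P hz]
    exact ⟨Real.exp_le_one_iff.mpr (by norm_num), Real.one_le_exp (by norm_num)⟩

theorem Vf_near (P : Prof h h') (z v : ℂ) : ‖Vf h' z v - v‖ ≤ (1 / 4) * ‖v‖ := by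
  by_cases hz : ∃ n c, InAnn n c z
  · obtain ⟨n, c, hz⟩ := hz
    rw [Vf_in P hz]
    have h1 := Q_bound P n (z - (c : ℂ)) v
    have h2 : ((1 : ℝ) / 2) ^ n ≤ 1 := pow_le_one₀ (by norm_num) (by norm_num)
    have h3 : v + Q h' n (z - (c : ℂ)) v - v = Q h' n (z - (c : ℂ)) v := by ring
    rw [h3]
    refine h1.trans ?_
    have := norm_nonneg v
    nlinarith
  · rw [Vf_out P hz]
    simp

theorem lam_measurable (P : Prof h h') : Measurable (lam h) := by
  have h1 : ∀ N : ℕ, Measurable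
      (fun z => 1 + ∑ m ∈ Finset.range N, layer (fun k z => ex h k z - 1) 0 m z) := by
    intro N
    apply Continuous.measurable
    apply continuous_const.add
    apply continuous_finsetSum
    intro m _
    exact layer_cont1 (fun k => (ex_continuous P k).sub continuous_const) m 0
  refine measurable_of_tendsto_metrizable h1 ?_
  rw [tendsto_pi_nhds]
  intro z
  by_cases hz : ∃ n c, InAnn n c z
  · obtain ⟨n, c, hz⟩ := hz
    rw [lam_in P hz]
    apply tendsto_const_nhds.congr'
    filter_upwards [eventually_gt_atTop n] with N hN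
    rw [sum_in (ann_ex P) hz, if_pos hN]
    ring
  · rw [lam_out P hz]
    apply tendsto_const_nhds.congr'
    filter_upwards with N
    rw [sum_out (ann_ex P) hz]
    ring

/-- the path formula -/
theorem path_formula (P : Prof h h') {γ γ' : ℝ → ℂ} (hγ : ∀ t, HasDerivAt γ (γ' t) t)
    (hc : Continuous γ') (a c : ℝ) :
    ∫ t in a..c, ((lam h (γ t) : ℝ) : ℂ) * Vf h' (γ t) (γ' t) = F h (γ c) - F h (γ a) := by
  have hγc : Continuous γ := continuous_iff_continuousAt.mpr (fun t => (hγ t).continuousAt)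
  -- partial sums
  set G : ℕ → ℝ → ℂ := fun N t =>
    γ' t + ∑ m ∈ Finset.range N, layer (fun k z => D h h' k z (γ' t)) 0 m (γ t) with hG
  have hGc : ∀ N, Continuous (G N) := by
    intro N
    apply hc.add
    apply continuous_finsetSum
    intro m _
    exact (layer_cont2 (D_continuous P) m 0).comp (hγc.prodMk hc)
  have h1 : ∀ N : ℕ, ∫ t in a..c, G N t =
      (γ c + ∑ m ∈ Finset.range N, layer (w h) 0 m (γ c)) -
      (γ a + ∑ m ∈ Finset.range N, layer (w h) 0 m (γ a)) := by
    intro N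
    apply intervalIntegral.integral_eq_sub_of_hasDerivAt
      (f := fun t => γ t + ∑ m ∈ Finset.range N, layer (w h) 0 m (γ t))
    · intro t _
      have h2 := HasDerivAt.fun_sum (u := Finset.range N)
        (fun m _ => layer_hasDeriv P m 0 (hγ t))
      exact (hγ t).add h2
    · exact (hGc N).intervalIntegrable _ _
  have h2 : ∀ t N, ‖G N t‖ ≤ 5 * ‖γ' t‖ := by
    intro t N
    have e1 : Real.exp 1 ≤ 2.7182818286 := Real.exp_one_lt_d9.le
    have hv := norm_nonneg (γ' t)
    by_cases hz : ∃ n c, InAnn n c (γ t)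
    · obtain ⟨n, c, hz⟩ := hz
      simp only [hG]
      rw [sum_in (ann_D P _) hz]
      split_ifs with hN
      · have e : γ' t + D h h' n (γ t - (c : ℂ)) (γ' t) =
            ((ex h n (γ t - (c : ℂ)) : ℝ) : ℂ) * (γ' t + Q h' n (γ t - (c : ℂ)) (γ' t)) := by
          unfold D; push_cast; ring
        rw [e, norm_mul, Complex.norm_real, Real.norm_eq_abs,
          abs_of_pos (by unfold ex; exact Real.exp_pos _)]
        have h3 := (ex_bounds P n (γ t - (c : ℂ))).2
        have h4 := Q_bound P n (γ t - (c : ℂ)) (γ' t)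
        have h5 : ((1 : ℝ) / 2) ^ n ≤ 1 := pow_le_one₀ (by norm_num) (by norm_num)
        have h6 : ‖γ' t + Q h' n (γ t - (c : ℂ)) (γ' t)‖ ≤ (5 / 4) * ‖γ' t‖ := by
          refine (norm_add_le _ _).trans ?_
          nlinarith
        have h7 : 0 < ex h n (γ t - (c : ℂ)) := Real.exp_pos _
        calc _ ≤ 2.7182818286 * ((5 / 4) * ‖γ' t‖) :=
              mul_le_mul (h3.trans e1) h6 (norm_nonneg _) (by norm_num)
          _ ≤ 5 * ‖γ' t‖ := by nlinarith
      · rw [add_zero]; nlinarith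
    · simp only [hG]
      rw [sum_out (ann_D P _) hz, add_zero]
      nlinarith
  have h3 : ∀ t, Tendsto (fun N => G N t) atTop
      (𝓝 (((lam h (γ t) : ℝ) : ℂ) * Vf h' (γ t) (γ' t))) := by
    intro t
    by_cases hz : ∃ n c, InAnn n c (γ t)
    · obtain ⟨n, c, hz⟩ := hz
      rw [lam_in P hz, Vf_in P hz]
      apply tendsto_const_nhds.congr'
      filter_upwards [eventually_gt_atTop n] with N hN
      simp only [hG]
      rw [sum_in (ann_D P _) hz, if_pos hN]
      unfold D; push_cast; ring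
    · rw [lam_out P hz, Vf_out P hz]
      apply tendsto_const_nhds.congr'
      filter_upwards with N
      simp only [hG]
      rw [sum_out (ann_D P _) hz]
      simp
  have h4 : Tendsto (fun N => ∫ t in a..c, G N t) atTop
      (𝓝 (∫ t in a..c, ((lam h (γ t) : ℝ) : ℂ) * Vf h' (γ t) (γ' t))) := by
    apply intervalIntegral.tendsto_integral_filter_of_dominated_convergence (fun t => 5 * ‖γ' t‖)
    · exact Eventually.of_forall (fun N => (hGc N).aestronglyMeasurable)
    · exact Eventually.of_forall (fun N => Eventually.of_forall (fun t _ => h2 t N))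
    · exact (continuous_const.mul hc.norm).intervalIntegrable _ _
    · exact Eventually.of_forall (fun t _ => h3 t)
  have h5 : ∀ z : ℂ, Tendsto (fun N => z + ∑ m ∈ Finset.range N, layer (w h) 0 m z) atTop
      (𝓝 (F h z)) := by
    intro z
    by_cases hz : ∃ n c, InAnn n c z
    · obtain ⟨n, c, hz⟩ := hz
      unfold F
      rw [tsum_in (ann_w P) hz]
      apply tendsto_const_nhds.congr'
      filter_upwards [eventually_gt_atTop n] with N hN
      rw [sum_in (ann_w P) hz, if_pos hN]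
    · unfold F
      rw [tsum_out (ann_w P) hz]
      apply tendsto_const_nhds.congr'
      filter_upwards with N
      rw [sum_out (ann_w P) hz]
  have h6 := (h5 (γ c)).sub (h5 (γ a))
  simp_rw [h1] at h4
  exact tendsto_nhds_unique h4 h6

end Pool.Agent.H77DF
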