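import Mathlib
import Pool.Agent.H77DF.Path
import Pool.Agent.H77DF.Defs

/-!
The maps send closed `C^1` curves to closed `C^1` curves; inverse profiles.
-/

open Set Filter Topology MeasureTheory

namespace Pool.Agent.H77DF

theorem reparam {l : ℝ → ℝ} {V β : ℝ → ℂ} {m M : ℝ} (hm : 0 < m)
    (hl : ∀ t, m ≤ l t ∧ l t ≤ M) (hmeas : Measurable l) (hV : Continuous V)
    (hβ : ∀ a c, ∫ t in a..c, ((l t : ℝ) : ℂ) * V t = β c - β a)
    (hper : ∀ t, l (t + 1) = l t) :
    ∃ (τ : ℝ → ℝ) (T : ℝ), 0 < T ∧ StrictMono τ ∧ Function.Surjective τ ∧ Continuous τ ∧ τ 0 = 0 ∧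
      (∀ s, τ (s + T) = τ s + 1) ∧ (∀ s, HasDerivAt (fun s => β (τ s)) (V (τ s)) s) := by
  have hint : ∀ a c, IntervalIntegrable l volume a c := by
    intro a c
    refine (intervalIntegrable_const (c := M)).mono_fun hmeas.aestronglyMeasurable ?_
    refine Eventually.of_forall (fun t => ?_)
    have h1 := hl t
    show ‖l t‖ ≤ ‖M‖
    rw [Real.norm_eq_abs, Real.norm_eq_abs, abs_of_pos (by linarith), abs_of_pos (by linarith)]
    exact h1.2
  obtain ⟨σ, hσ⟩ : ∃ σ : ℝ → ℝ, σ = fun t => ∫ u in (0 : ℝ)..t, l u := ⟨_, rfl⟩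
  have hdiff : ∀ a c, σ c - σ a = ∫ u in a..c, l u := by
    intro a c
    rw [hσ]
    simp only
    rw [intervalIntegral.integral_interval_sub_left (hint _ _) (hint _ _)]
  have hlow : ∀ a c, a ≤ c → m * (c - a) ≤ σ c - σ a := by
    intro a c hac
    rw [hdiff]
    have h1 := intervalIntegral.integral_mono_on (μ := volume) hac
      (intervalIntegrable_const (c := m)) (hint a c) (fun t _ => (hl t).1)
    rw [intervalIntegral.integral_const, smul_eq_mul] at h1
    linarith
  have hmono : StrictMono σ := by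
    intro a c hac
    have := hlow a c hac.le
    have : 0 < m * (c - a) := mul_pos hm (by linarith)
    linarith
  have hcont : Continuous σ := by
    rw [hσ]
    exact intervalIntegral.continuous_primitive (fun a c => hint a c) 0
  have h0 : σ 0 = 0 := by rw [hσ]; simp
  have htop : Tendsto σ atTop atTop := by
    apply tendsto_atTop_mono' atTop _ (tendsto_id.const_mul_atTop hm)
    filter_upwards [eventually_ge_atTop 0] with t ht
    have := hlow 0 t ht
    rw [h0] at this
    simp only [id]
    linarith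
  have hbot : Tendsto σ atBot atBot := by
    apply tendsto_atBot_mono' atBot _ (tendsto_id.const_mul_atBot hm)
    filter_upwards [eventually_le_atBot 0] with t ht
    have := hlow t 0 ht
    rw [h0] at this
    simp only [id]
    linarith
  have hsurj : Function.Surjective σ := hcont.surjective htop hbot
  obtain ⟨e, he⟩ : ∃ e : ℝ ≃o ℝ, ∀ t, e t = σ t :=
    ⟨StrictMono.orderIsoOfSurjective σ hmono hsurj, fun t => rfl⟩
  have hse : ∀ s, σ (e.symm s) = s := fun s => by rw [← he]; exact e.apply_symm_apply s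
  have hes : ∀ t, e.symm (σ t) = t := fun t => by rw [← he]; exact e.symm_apply_apply t
  refine ⟨e.symm, σ 1, ?_, e.symm.strictMono, e.symm.surjective, e.symm.continuous, ?_, ?_, ?_⟩
  · rw [← h0]; exact hmono one_pos
  · have := hes 0
    rwa [h0] at this
  · intro s
    have h1 : σ (e.symm s + 1) = s + σ 1 := by
      have h2 := hdiff (e.symm s) (e.symm s + 1)
      have h3 : ∫ u in (e.symm s)..(e.symm s + 1), l u = ∫ u in (0 : ℝ)..(0 + 1), l u := by
        have hp : Function.Periodic l 1 := hper
        exact hp.intervalIntegral_add_eq (e.symm s) 0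
      have h4 : ∫ u in (0 : ℝ)..(0 + 1), l u = σ 1 := by
        rw [hσ]; simp
      rw [h3, h4, hse] at h2
      linarith
    rw [← h1, hes]
  · intro s
    rw [hasDerivAt_iff_isLittleO, Asymptotics.isLittleO_iff]
    intro c hc
    have h1 : ∀ᶠ t in 𝓝 (e.symm s), ‖V t - V (e.symm s)‖ < c := by
      have h2 : Tendsto (fun t => ‖V t - V (e.symm s)‖) (𝓝 (e.symm s)) (𝓝 0) := by
        have := ((hV.tendsto (e.symm s)).sub_const (V (e.symm s))).norm
        simpa using this
      exact h2.eventually (gt_mem_nhds hc)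
    obtain ⟨δ, hδ, hball⟩ := Metric.eventually_nhds_iff.mp h1
    have h3 : ∀ᶠ x in 𝓝 s, dist (e.symm x) (e.symm s) < δ :=
      (e.symm.continuous.tendsto s).eventually (Metric.ball_mem_nhds _ hδ)
    filter_upwards [h3] with x hx
    have h4 : β (e.symm x) - β (e.symm s) - (x - s) • V (e.symm s) =
        ∫ u in (e.symm s)..(e.symm x), ((l u : ℝ) : ℂ) * (V u - V (e.symm s)) := by
      have h5 : (x - s) • V (e.symm s) =
          ∫ u in (e.symm s)..(e.symm x), ((l u : ℝ) : ℂ) * V (e.symm s) := by
        rw [intervalIntegral.integral_mul_const, intervalIntegral.integral_ofReal, ← hdiff, hse,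
          hse, Complex.real_smul]
      have hmeasC : Measurable (fun u => ((l u : ℝ) : ℂ)) := Complex.measurable_ofReal.comp hmeas
      have hintC : ∀ W : ℝ → ℂ, Continuous W →
          IntervalIntegrable (fun u => ((l u : ℝ) : ℂ) * W u) volume (e.symm s) (e.symm x) := by
        intro W hW
        refine ((hW.norm.const_mul M).intervalIntegrable _ _).mono_fun
          (hmeasC.aestronglyMeasurable.mul hW.aestronglyMeasurable) ?_
        refine Eventually.of_forall (fun u => ?_)
        have h1 := hl u
        show ‖((l u : ℝ) : ℂ) * W u‖ ≤ ‖M * ‖W u‖‖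
        rw [norm_mul, Complex.norm_real, Real.norm_eq_abs, abs_of_pos (by linarith), norm_mul,
          norm_norm, Real.norm_eq_abs, abs_of_pos (by linarith)]
        exact mul_le_mul_of_nonneg_right h1.2 (norm_nonneg _)
      rw [h5, ← hβ, ← intervalIntegral.integral_sub (hintC V hV) (hintC _ continuous_const)]
      apply intervalIntegral.integral_congr
      intro u _
      simp only
      ring
    rw [h4]
    have h6 : ∀ u ∈ Set.uIoc (e.symm s) (e.symm x),
        ‖((l u : ℝ) : ℂ) * (V u - V (e.symm s))‖ ≤ c * l u := by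
      intro u hu
      have h1 := hl u
      rw [norm_mul, Complex.norm_real, Real.norm_eq_abs, abs_of_pos (by linarith), mul_comm]
      apply mul_le_mul_of_nonneg_right _ (by linarith)
      apply le_of_lt
      apply hball
      rw [Real.dist_eq] at hx ⊢
      have hu' := Set.uIoc_subset_uIcc hu
      exact lt_of_le_of_lt (Set.abs_sub_left_of_mem_uIcc hu') hx
    have h7 := intervalIntegral.norm_integral_le_abs_of_norm_le (μ := volume)
      (f := fun u => ((l u : ℝ) : ℂ) * (V u - V (e.symm s))) (g := fun u => c * l u)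
      ((ae_restrict_mem measurableSet_uIoc).mono h6) ((hint _ _).const_mul c)
    refine h7.trans ?_
    rw [intervalIntegral.integral_const_mul, ← hdiff, hse, hse, abs_mul, abs_of_pos hc,
      Real.norm_eq_abs]

variable {h h' : ℕ → ℝ → ℝ}

theorem image_curve (P : Prof h h') (hinj : Function.Injective (F h)) {C : Set ℂ}
    (hC : IsC1Curve C) : IsC1Curve (F h '' C) := by
  obtain ⟨γ, h1, h2, h3, h4, rfl⟩ := hC
  have hd : ∀ t, HasDerivAt γ (deriv γ t) t :=
    fun t => ((h1.differentiable (by norm_num)) t).hasDerivAt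
  have hdc : Continuous (deriv γ) := h1.continuous_deriv (by norm_num)
  have hγc : Continuous γ := h1.continuous
  have hV : Continuous (fun t => Vf h' (γ t) (deriv γ t)) :=
    (Vf_continuous P).comp (hγc.prodMk hdc)
  obtain ⟨τ, T, hT, hτm, hτs, hτc, hτ0, hτp, hτd⟩ :=
    reparam (l := fun t => lam h (γ t)) (V := fun t => Vf h' (γ t) (deriv γ t))
      (β := fun t => F h (γ t)) (Real.exp_pos (-1)) (fun t => lam_bounds P (γ t))
      ((lam_measurable P).comp hγc.measurable) hV (fun a c => path_formula P hd hdc a c)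
      (fun t => by rw [h3])
  have hder : ∀ u, HasDerivAt (fun u => F h (γ (τ (T * u))))
      ((T : ℂ) * Vf h' (γ (τ (T * u))) (deriv γ (τ (T * u)))) u := by
    intro u
    have e1 : HasDerivAt (fun u : ℝ => T * u) T u := by
      simpa using (hasDerivAt_id u).const_mul T
    have e2 := HasDerivAt.scomp (h := fun u : ℝ => T * u) u (hτd (T * u)) e1
    rw [Complex.real_smul] at e2
    exact e2
  have hne : ∀ z v : ℂ, v ≠ 0 → Vf h' z v ≠ 0 := by
    intro z v hv hcon
    have e1 := Vf_near P z v
    rw [hcon, zero_sub, norm_neg] at e1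
    have := norm_pos_iff.mpr hv
    linarith
  refine ⟨fun u => F h (γ (τ (T * u))), ?_, ?_, ?_, ?_, ?_⟩
  · rw [contDiff_one_iff_deriv]
    refine ⟨fun u => (hder u).differentiableAt, ?_⟩
    have e1 : deriv (fun u => F h (γ (τ (T * u)))) =
        fun u => (T : ℂ) * Vf h' (γ (τ (T * u))) (deriv γ (τ (T * u))) := by
      funext u; exact (hder u).deriv
    rw [e1]
    exact continuous_const.mul (hV.comp (hτc.comp (continuous_const.mul continuous_id)))
  · intro u
    rw [(hder u).deriv]
    apply mul_ne_zero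
    · exact_mod_cast hT.ne'
    · exact hne _ _ (h2 _)
  · intro u
    simp only
    have e1 : T * (u + 1) = T * u + T := by ring
    rw [e1, hτp, h3]
  · intro u hu v hv huv
    simp only at huv
    have e1 : τ T = 1 := by
      have := hτp 0
      rwa [zero_add, hτ0, zero_add] at this
    have key : ∀ u ∈ Ico (0 : ℝ) 1, τ (T * u) ∈ Ico (0 : ℝ) 1 := by
      intro u hu
      refine ⟨?_, ?_⟩
      · rw [← hτ0]; exact hτm.monotone (mul_nonneg hT.le hu.1)
      · rw [← e1]
        apply hτm
        nlinarith [hu.2]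
    have e2 := h4 (key u hu) (key v hv) (hinj huv)
    have e3 := hτm.injective e2
    exact mul_left_cancel₀ hT.ne' e3
  · ext z
    constructor
    · rintro ⟨u, rfl⟩
      exact ⟨γ (τ (T * u)), ⟨_, rfl⟩, rfl⟩
    · rintro ⟨_, ⟨t, rfl⟩, rfl⟩
      obtain ⟨s, hs⟩ := hτs t
      refine ⟨s / T, ?_⟩
      simp only
      rw [mul_div_cancel₀ _ hT.ne', hs]

theorem path_lip (P : Prof h h') (z z' : ℂ) : ‖F h z' - F h z‖ ≤ 4 * ‖z' - z‖ := by
  have hγ : ∀ t : ℝ, HasDerivAt (fun t : ℝ => z + (t : ℂ) * (z' - z)) (z' - z) t := by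
    intro t
    have := ((hasDerivAt_id t).ofReal_comp.mul_const (z' - z)).const_add z
    simpa using this
  have h1 := path_formula P hγ continuous_const 0 1
  simp only [Complex.ofReal_one, one_mul, Complex.ofReal_zero, zero_mul, add_zero] at h1
  have e : z + (z' - z) = z' := by ring
  rw [e] at h1
  rw [← h1]
  have h2 : ∀ t ∈ Set.uIoc (0 : ℝ) 1,
      ‖((lam h (z + (t : ℂ) * (z' - z)) : ℝ) : ℂ) * Vf h' (z + (t : ℂ) * (z' - z)) (z' - z)‖ ≤
        4 * ‖z' - z‖ := by
    intro t _
    have e1 : Real.exp 1 ≤ 2.7182818286 := Real.exp_one_lt_d9.le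
    have h3 := lam_bounds P (z + (t : ℂ) * (z' - z))
    have h4 := Vf_near P (z + (t : ℂ) * (z' - z)) (z' - z)
    have h5 := Real.exp_pos (-1)
    have h6 : ‖Vf h' (z + (t : ℂ) * (z' - z)) (z' - z)‖ ≤ (5 / 4) * ‖z' - z‖ := by
      have := norm_le_norm_sub_add (Vf h' (z + (t : ℂ) * (z' - z)) (z' - z)) (z' - z)
      linarith
    rw [norm_mul, Complex.norm_real, Real.norm_eq_abs, abs_of_pos (by linarith)]
    have h7 := norm_nonneg (z' - z)
    calc _ ≤ 2.7182818286 * ((5 / 4) * ‖z' - z‖) :=
          mul_le_mul (h3.2.trans e1) h6 (norm_nonneg _) (by norm_num)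
      _ ≤ _ := by nlinarith
  have h3 := intervalIntegral.norm_integral_le_of_norm_le_const h2
  simpa using h3

theorem F_continuous (P : Prof h h') : Continuous (F h) := by
  have : LipschitzWith 4 (F h) := by
    apply LipschitzWith.of_dist_le_mul
    intro x y
    rw [dist_eq_norm, dist_eq_norm]
    exact_mod_cast path_lip P y x
  exact this.continuous

theorem Y_mono (P : Prof h h') (k : ℕ) : StrictMono (fun y => y + h k y) := by
  apply strictMono_of_deriv_pos
  intro y
  have h1 : HasDerivAt (fun y => y + h k y) (1 + h' k y) y := (hasDerivAt_id y).add (P.deriv k y)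
  rw [h1.deriv]
  have h2 := (abs_le.mp (P.bd' k y)).1
  have h3 : ((1 : ℝ) / 2) ^ k ≤ 1 := pow_le_one₀ (by norm_num) (by norm_num)
  linarith

theorem comp_inv {g g' : ℕ → ℝ → ℝ} (P : Prof h h') (P2 : Prof g g')
    (hg : ∀ k y, g k (y + h k y) = - h k y) (z : ℂ) : F g (F h z) = z := by
  by_cases hz : ∃ n c, InAnn n c z
  · obtain ⟨n, c, hz⟩ := hz
    obtain ⟨y, hy⟩ : ∃ y, y = Real.log ‖z - (c : ℂ)‖ := ⟨_, rfl⟩
    have hpos : 0 < ‖z - (c : ℂ)‖ := lt_trans (rho_pos n) hz.2.1
    have hy1 : Real.log (rho n) < y := by rw [hy]; exact Real.log_lt_log (rho_pos n) hz.2.1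
    have hy2 : y < Real.log (R n) := by rw [hy]; exact Real.log_lt_log hpos hz.2.2
    have e1 : F h z - (c : ℂ) = ((ex h n (z - (c : ℂ)) : ℝ) : ℂ) * (z - (c : ℂ)) := by
      rw [F_in P hz]; ring
    have e2 : ex h n (z - (c : ℂ)) = Real.exp (h n y) := by rw [hy]; rfl
    have e3 : ‖F h z - (c : ℂ)‖ = Real.exp (y + h n y) := by
      rw [e1, norm_mul, Complex.norm_real, Real.norm_eq_abs, e2, abs_of_pos (Real.exp_pos _),
        Real.exp_add, hy, Real.exp_log hpos]
      ring
    have k1 : Real.log (rho n) < y + h n y := by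
      have := Y_mono P n hy1
      simp only at this
      rwa [(P.supp n _ (Or.inl le_rfl)).1, add_zero] at this
    have k2 : y + h n y < Real.log (R n) := by
      have := Y_mono P n hy2
      simp only at this
      rwa [(P.supp n _ (Or.inr le_rfl)).1, add_zero] at this
    have hz' : InAnn n c (F h z) := by
      refine ⟨hz.1, ?_, ?_⟩
      · rw [e3, ← Real.exp_log (rho_pos n)]; exact Real.exp_lt_exp.mpr k1
      · rw [e3, ← Real.exp_log (R_pos n)]; exact Real.exp_lt_exp.mpr k2
    rw [F_in P2 hz', e1]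
    have e4 : ex g n (((ex h n (z - (c : ℂ)) : ℝ) : ℂ) * (z - (c : ℂ))) = Real.exp (- h n y) := by
      unfold ex at e1 ⊢
      rw [← e1, e3, Real.log_exp, hg]
    rw [e4, e2, ← mul_assoc, ← Complex.ofReal_mul, ← Real.exp_add]
    simp
  · rw [F_out P hz, F_out P2 hz]

theorem exists_inv (P : Prof h h') (hb : ∀ k y, |h' k y| ≤ (1 / 8) * (1 / 2) ^ k) :
    ∃ g g' : ℕ → ℝ → ℝ, Prof g g' ∧ (∀ k y, g k (y + h k y) = - h k y) ∧
      (∀ k y, h k (y + g k y) = - g k y) := by
  have hd : ∀ k y, HasDerivAt (fun y => y + h k y) (1 + h' k y) y :=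
    fun k y => (hasDerivAt_id y).add (P.deriv k y)
  have hcont : ∀ k, Continuous (fun y => y + h k y) :=
    fun k => continuous_iff_continuousAt.mpr (fun y => (hd k y).continuousAt)
  have hsurj : ∀ k, Function.Surjective (fun y => y + h k y) := by
    intro k
    apply (hcont k).surjective
    · have h1 : Tendsto (fun y : ℝ => y + (-1)) atTop atTop :=
        tendsto_atTop_add_const_right _ _ tendsto_id
      refine tendsto_atTop_mono (fun y => ?_) h1
      have := (abs_le.mp (P.bd k y)).1
      linarith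
    · have h1 : Tendsto (fun y : ℝ => y + 1) atBot atBot :=
        tendsto_atBot_add_const_right _ _ tendsto_id
      refine tendsto_atBot_mono (fun y => ?_) h1
      have := (abs_le.mp (P.bd k y)).2
      linarith
  have hiso : ∀ k, ∃ e : ℝ ≃o ℝ, ∀ y, e y = y + h k y :=
    fun k => ⟨StrictMono.orderIsoOfSurjective _ (Y_mono P k) (hsurj k), fun y => rfl⟩
  choose e he using hiso
  have e1 : ∀ k x, (e k).symm x + h k ((e k).symm x) = x := by
    intro k x; rw [← he]; exact (e k).apply_symm_apply x
  have e2 : ∀ k y, (e k).symm (y + h k y) = y := by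
    intro k y; rw [← he]; exact (e k).symm_apply_apply y
  have hh : ∀ k x, |h' k x| ≤ 1 / 8 := by
    intro k x
    refine (hb k x).trans ?_
    have h3 : ((1 : ℝ) / 2) ^ k ≤ 1 := pow_le_one₀ (by norm_num) (by norm_num)
    linarith
  refine ⟨fun k x => (e k).symm x - x, fun k x => (1 + h' k ((e k).symm x))⁻¹ - 1, ?_, ?_, ?_⟩
  · constructor
    · intro k x
      have h1 : HasDerivAt (e k).symm (1 + h' k ((e k).symm x))⁻¹ x := by
        apply HasDerivAt.of_local_left_inverse ((e k).symm.continuous.continuousAt)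
          (hd k _)
        · have := (abs_le.mp (hh k ((e k).symm x))).1
          linarith
        · exact Eventually.of_forall (fun y => e1 k y)
      exact h1.sub (hasDerivAt_id x)
    · intro k
      apply Continuous.sub _ continuous_const
      apply Continuous.inv₀
      · exact continuous_const.add ((P.cont k).comp (e k).symm.continuous)
      · intro x
        have := (abs_le.mp (hh k ((e k).symm x))).1
        linarith
    · intro k x
      have h1 := e1 k x
      have h2 : (e k).symm x - x = - h k ((e k).symm x) := by linarith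
      rw [h2, abs_neg]
      exact P.bd k _
    · intro k x
      have h1 := abs_le.mp (hh k ((e k).symm x))
      have h2 : 0 < 1 + h' k ((e k).symm x) := by linarith
      have h3 : (1 + h' k ((e k).symm x))⁻¹ - 1 =
          - h' k ((e k).symm x) / (1 + h' k ((e k).symm x)) := by
        field_simp; ring
      rw [h3, abs_div, abs_neg, abs_of_pos h2, div_le_iff₀ h2]
      have h4 := hb k ((e k).symm x)
      have h5 : 0 < ((1 : ℝ) / 2) ^ k := by positivity
      nlinarith [h1.1]
    · intro k x hx
      have h1 := P.supp k x hx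
      have h2 : (e k).symm x = x := by
        have := e2 k x
        rwa [h1.1, add_zero] at this
      rw [h2, h1.2]
      norm_num
  · intro k y
    show (e k).symm (y + h k y) - (y + h k y) = - h k y
    rw [e2]
    ring
  · intro k y
    show h k (y + ((e k).symm y - y)) = - ((e k).symm y - y)
    have h1 := e1 k y
    have h2 : y + ((e k).symm y - y) = (e k).symm y := by ring
    rw [h2]
    linarith

end Pool.Agent.H77DF
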