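import Mathlib
import Pool.Agent.H77DF.Curve

/-!
The concrete profile, the Cantor set and non-differentiability on it.
-/

open Set Filter Topology

namespace Pool.Agent.H77DF

/-- bump function -/
noncomputable def th (x : ℝ) : ℝ := (max 0 (4 * x * (1 - x))) ^ 2

/-- its derivative -/
noncomputable def th' (x : ℝ) : ℝ := 2 * max 0 (4 * x * (1 - x)) * (4 - 8 * x)

theorem hasDeriv_sq_max (t : ℝ) : HasDerivAt (fun t : ℝ => (max 0 t) ^ 2) (2 * max 0 t) t := by
  rcases lt_trichotomy t 0 with ht | ht | ht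
  · have h1 : (fun t : ℝ => (max 0 t) ^ 2) =ᶠ[𝓝 t] fun _ => 0 := by
      filter_upwards [gt_mem_nhds ht] with s hs
      rw [max_eq_left hs.le]; norm_num
    rw [max_eq_left ht.le, mul_zero]
    exact (hasDerivAt_const t (0 : ℝ)).congr_of_eventuallyEq h1
  · subst ht
    rw [max_self, mul_zero, hasDerivAt_iff_isLittleO, Asymptotics.isLittleO_iff]
    intro c hc
    filter_upwards [Metric.ball_mem_nhds (0 : ℝ) hc] with s hs
    rw [Metric.mem_ball, Real.dist_eq, sub_zero] at hs
    simp only [max_self, sub_zero, smul_zero]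
    have h1 : 0 ≤ max 0 s := le_max_left _ _
    have h2 : max 0 s ≤ |s| := max_le (abs_nonneg _) (le_abs_self _)
    have e0 : ((0 : ℝ)) ^ 2 = 0 := by norm_num
    rw [e0, sub_zero, Real.norm_eq_abs, Real.norm_eq_abs, abs_of_nonneg (by positivity), sq]
    exact mul_le_mul (h2.trans hs.le) h2 h1 hc.le
  · have h1 : (fun t : ℝ => (max 0 t) ^ 2) =ᶠ[𝓝 t] fun t => t ^ 2 := by
      filter_upwards [lt_mem_nhds ht] with s hs
      rw [max_eq_right hs.le]
    rw [max_eq_right ht.le]
    have h2 : HasDerivAt (fun t : ℝ => t ^ 2) (2 * t) t := by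
      simpa using hasDerivAt_pow 2 t
    exact h2.congr_of_eventuallyEq h1

theorem th_deriv (x : ℝ) : HasDerivAt th (th' x) x := by
  have h1 : HasDerivAt (fun x : ℝ => 4 * x * (1 - x)) (4 - 8 * x) x := by
    have h2 : HasDerivAt (fun x : ℝ => 4 * x) 4 x := by
      simpa using (hasDerivAt_id x).const_mul 4
    have h3 : HasDerivAt (fun x : ℝ => 1 - x) (-1) x := by
      simpa using (hasDerivAt_id x).const_sub 1
    refine (h2.mul h3).congr_deriv ?_
    ring
  exact (hasDeriv_sq_max _).comp x h1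

theorem th'_cont : Continuous th' := by
  unfold th'
  fun_prop

theorem quad_le (x : ℝ) : 4 * x * (1 - x) ≤ 1 := by nlinarith [sq_nonneg (2 * x - 1)]

theorem th_bd (x : ℝ) : |th x| ≤ 1 := by
  unfold th
  have h1 : 0 ≤ max 0 (4 * x * (1 - x)) := le_max_left _ _
  have h2 : max 0 (4 * x * (1 - x)) ≤ 1 := max_le zero_le_one (quad_le x)
  rw [abs_of_nonneg (by positivity)]
  exact pow_le_one₀ h1 h2

theorem th'_bd (x : ℝ) : |th' x| ≤ 8 := by
  unfold th'
  have h1 : 0 ≤ max 0 (4 * x * (1 - x)) := le_max_left _ _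
  have h2 : max 0 (4 * x * (1 - x)) ≤ 1 := max_le zero_le_one (quad_le x)
  by_cases hx : 0 ≤ x ∧ x ≤ 1
  · rw [abs_mul, abs_of_nonneg (by positivity)]
    have h3 : |4 - 8 * x| ≤ 4 := abs_le.mpr ⟨by linarith [hx.2], by linarith [hx.1]⟩
    have h4 := abs_nonneg (4 - 8 * x)
    nlinarith
  · have h3 : 4 * x * (1 - x) ≤ 0 := by
      rw [not_and_or, not_le, not_le] at hx
      rcases hx with hx | hx <;> nlinarith
    rw [max_eq_left h3]
    norm_num

theorem th_supp {x : ℝ} (hx : x ≤ 0 ∨ 1 ≤ x) : th x = 0 ∧ th' x = 0 := by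
  have h3 : 4 * x * (1 - x) ≤ 0 := by
    rcases hx with hx | hx <;> nlinarith
  unfold th th'
  rw [max_eq_left h3]
  constructor <;> ring

/-- the profile -/
noncomputable def hp (k : ℕ) (y : ℝ) : ℝ := th ((y - Real.log (rho k)) / 2 ^ (k + 6))

/-- its derivative -/
noncomputable def hp' (k : ℕ) (y : ℝ) : ℝ :=
  th' ((y - Real.log (rho k)) / 2 ^ (k + 6)) / 2 ^ (k + 6)

theorem log_R (k : ℕ) : Real.log (R k) = Real.log (rho k) + 2 ^ (k + 6) := by
  unfold rho
  rw [Real.log_mul (R_pos k).ne' (Real.exp_pos _).ne', Real.log_exp]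
  ring

theorem hp'_bd (k : ℕ) (y : ℝ) : |hp' k y| ≤ (1 / 8) * (1 / 2) ^ k := by
  unfold hp'
  have h1 : (0 : ℝ) < 2 ^ (k + 6) := by positivity
  rw [abs_div, abs_of_pos h1, div_le_iff₀ h1]
  have h2 : (1 / 8 : ℝ) * (1 / 2) ^ k * 2 ^ (k + 6) = 8 := by
    rw [pow_add, one_div_pow]
    field_simp
    norm_num
  rw [h2]
  exact th'_bd _

theorem prof_hp : Prof hp hp' := by
  constructor
  · intro k y
    have h1 : HasDerivAt (fun y : ℝ => (y - Real.log (rho k)) / 2 ^ (k + 6)) (1 / 2 ^ (k + 6)) y :=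
      ((hasDerivAt_id y).sub_const _).div_const _
    refine ((th_deriv _).comp y h1).congr_deriv ?_
    unfold hp'
    ring
  · intro k
    unfold hp'
    exact (th'_cont.comp ((continuous_id.sub continuous_const).div_const _)).div_const _
  · intro k y
    exact th_bd _
  · intro k y
    refine (hp'_bd k y).trans ?_
    have : (0 : ℝ) < (1 / 2) ^ k := by positivity
    linarith
  · intro k y hy
    have h1 : (0 : ℝ) < 2 ^ (k + 6) := by positivity
    have h2 : (y - Real.log (rho k)) / 2 ^ (k + 6) ≤ 0 ∨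
        1 ≤ (y - Real.log (rho k)) / 2 ^ (k + 6) := by
      rcases hy with hy | hy
      · left
        exact div_nonpos_of_nonpos_of_nonneg (by linarith) h1.le
      · right
        rw [le_div_iff₀ h1]
        rw [log_R] at hy
        linarith
    obtain ⟨h3, h4⟩ := th_supp h2
    unfold hp hp'
    rw [h3, h4]
    simp

/-- sign -/
def sg (x : Bool) : ℝ := if x then 1 else -1

theorem sg_abs (x : Bool) : |sg x| = 1 := by cases x <;> simp [sg]

theorem b_succ (k : ℕ) : b (k + 1) ≤ b k / 8 := by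
  have h1 := rho_lt (k + 1)
  have h2 := R_succ_b k
  unfold b at h2 ⊢
  linarith

theorem b_add (k j : ℕ) : b (k + j) ≤ b k * (1 / 8) ^ j := by
  induction j with
  | zero => simp
  | succ j ih =>
    have := b_succ (k + j)
    rw [← add_assoc, pow_succ]
    linarith

/-- points of the Cantor set -/
noncomputable def pt (k : ℕ) (s : ℕ → Bool) : ℝ := ∑' j, sg (s j) * b (k + j)

theorem term_bd (k : ℕ) (s : ℕ → Bool) (j : ℕ) : |sg (s j) * b (k + j)| ≤ b k * (1 / 8) ^ j := by
  rw [abs_mul, sg_abs, one_mul, abs_of_pos (b_pos _)]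
  exact b_add k j

theorem geo_summable (k : ℕ) : Summable (fun j : ℕ => b k * (1 / 8 : ℝ) ^ j) :=
  (summable_geometric_of_lt_one (by norm_num) (by norm_num)).mul_left _

theorem term_summable (k : ℕ) (s : ℕ → Bool) : Summable (fun j => sg (s j) * b (k + j)) := by
  apply Summable.of_norm_bounded (geo_summable k)
  intro j
  exact term_bd k s j

theorem pt_abs (k : ℕ) (s : ℕ → Bool) : |pt k s| ≤ 8 / 7 * b k := by
  unfold pt
  have h1 := tsum_of_norm_bounded (f := fun j => sg (s j) * b (k + j)) (geo_summable k).hasSum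
    (fun j => term_bd k s j)
  rw [tsum_mul_left, tsum_geometric_of_lt_one (by norm_num) (by norm_num)] at h1
  rw [← Real.norm_eq_abs]
  refine h1.trans (le_of_eq ?_)
  ring

theorem pt_succ (k : ℕ) (s : ℕ → Bool) :
    pt k s = sg (s 0) * b k + pt (k + 1) (fun j => s (j + 1)) := by
  unfold pt
  rw [(term_summable k s).tsum_eq_zero_add]
  simp only [add_zero]
  congr 1
  apply tsum_congr
  intro j
  have : k + (j + 1) = k + 1 + j := by ring
  rw [this]

/-- partial sums: the centres -/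
noncomputable def cen (k n : ℕ) (s : ℕ → Bool) : ℝ := ∑ j ∈ Finset.range n, sg (s j) * b (k + j)

theorem cen_succ (k n : ℕ) (s : ℕ → Bool) :
    cen k (n + 1) s = sg (s 0) * b k + cen (k + 1) n (fun j => s (j + 1)) := by
  unfold cen
  rw [Finset.sum_range_succ', add_comm]
  simp only [add_zero]
  congr 1
  apply Finset.sum_congr rfl
  intro j _
  have : k + (j + 1) = k + 1 + j := by ring
  rw [this]

theorem cent_cen (n : ℕ) : ∀ k s, Cent k n (cen k n s) := by
  induction n with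
  | zero => intro k s; simpa [cen] using Cent.zero k
  | succ n ih =>
    intro k s
    rw [cen_succ]
    have h1 := ih (k + 1) (fun j => s (j + 1))
    cases hs : s 0
    · simpa [sg, hs] using Cent.left h1
    · simpa [sg, hs] using Cent.right h1

theorem pt_sub_cen (n : ℕ) : ∀ k s, |pt k s - cen k n s| ≤ 8 / 7 * b (k + n) := by
  induction n with
  | zero => intro k s; simpa [cen] using pt_abs k s
  | succ n ih =>
    intro k s
    rw [cen_succ, pt_succ]
    have h1 := ih (k + 1) (fun j => s (j + 1))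
    have e : k + (n + 1) = k + 1 + n := by ring
    rw [e]
    have e2 : sg (s 0) * b k + pt (k + 1) (fun j => s (j + 1)) -
      (sg (s 0) * b k + cen (k + 1) n (fun j => s (j + 1))) =
      pt (k + 1) (fun j => s (j + 1)) - cen (k + 1) n (fun j => s (j + 1)) := by ring
    rw [e2]
    exact h1

theorem layer_pt {X : Type} [AddCommGroup X] {g : ℕ → ℂ → X} (hg : Ann g) (n : ℕ) :
    ∀ k s, layer g k n ((pt k s : ℝ) : ℂ) = 0 := by
  induction n with
  | zero =>
    intro k s
    apply hg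
    left
    rw [Complex.norm_real, Real.norm_eq_abs]
    have h1 := pt_abs k s
    have h2 : b k = rho k / 2 := rfl
    have h3 := rho_pos k
    linarith
  | succ n ih =>
    intro k s
    show layer g (k + 1) n ((pt k s : ℂ) - (b k : ℂ)) + layer g (k + 1) n ((pt k s : ℂ) + (b k : ℂ)) = 0
    have h1 := ih (k + 1) (fun j => s (j + 1))
    have h2 := pt_abs (k + 1) (fun j => s (j + 1))
    have h3 := b_succ k
    have h4 := b_pos k
    have h5 := R_succ_b k
    have h6 := pt_succ k s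
    cases hs : s 0
    · rw [hs] at h6
      have e1 : (pt k s : ℂ) + (b k : ℂ) = ((pt (k + 1) (fun j => s (j + 1)) : ℝ) : ℂ) := by
        rw [h6]; simp [sg]
      have e2 : (pt k s : ℂ) - (b k : ℂ) =
          ((pt (k + 1) (fun j => s (j + 1)) - 2 * b k : ℝ) : ℂ) := by
        rw [h6]; simp [sg]; ring
      rw [e1, h1, add_zero, e2]
      apply layer_zero hg
      rw [Complex.norm_real, Real.norm_eq_abs]
      have h7 := (abs_le.mp h2).2
      rw [abs_of_neg (by linarith)]
      linarith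
    · rw [hs] at h6
      have e1 : (pt k s : ℂ) - (b k : ℂ) = ((pt (k + 1) (fun j => s (j + 1)) : ℝ) : ℂ) := by
        rw [h6]; simp [sg]
      have e2 : (pt k s : ℂ) + (b k : ℂ) =
          ((pt (k + 1) (fun j => s (j + 1)) + 2 * b k : ℝ) : ℂ) := by
        rw [h6]; simp [sg]; ring
      rw [e1, h1, zero_add, e2]
      apply layer_zero hg
      rw [Complex.norm_real, Real.norm_eq_abs]
      have h7 := (abs_le.mp h2).1
      rw [abs_of_pos (by linarith)]
      linarith

theorem F_pt {h h' : ℕ → ℝ → ℝ} (P : Prof h h') (s : ℕ → Bool) :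
    F h ((pt 0 s : ℝ) : ℂ) = ((pt 0 s : ℝ) : ℂ) := by
  unfold F
  have : ∀ m, layer (w h) 0 m ((pt 0 s : ℝ) : ℂ) = 0 := fun m => layer_pt (ann_w P) m 0 s
  simp [this]

theorem pt_inj : ∀ k s s', pt k s = pt k s' → s 0 = s' 0 ∧
    pt (k + 1) (fun j => s (j + 1)) = pt (k + 1) (fun j => s' (j + 1)) := by
  intro k s s' hss
  have h1 := pt_succ k s
  have h2 := pt_succ k s'
  have h3 := abs_le.mp (pt_abs (k + 1) (fun j => s (j + 1)))
  have h4 := abs_le.mp (pt_abs (k + 1) (fun j => s' (j + 1)))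
  have h5 := b_succ k
  have h6 := b_pos k
  have h7 : s 0 = s' 0 := by
    cases e1 : s 0 <;> cases e2 : s' 0 <;> simp only [e1, e2] at h1 h2 ⊢
    · exfalso
      simp only [sg] at h1 h2
      norm_num at h1 h2
      linarith [h3.1, h3.2, h4.1, h4.2]
    · exfalso
      simp only [sg] at h1 h2
      norm_num at h1 h2
      linarith [h3.1, h3.2, h4.1, h4.2]
  refine ⟨h7, ?_⟩
  rw [h7] at h1
  linarith

theorem pt_injective : Function.Injective (pt 0) := by
  intro s s' hss
  have key : ∀ n k s s', pt k s = pt k s' → s n = s' n := by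
    intro n
    induction n with
    | zero => intro k s s' h; exact (pt_inj k s s' h).1
    | succ n ih =>
      intro k s s' h
      exact ih (k + 1) (fun j => s (j + 1)) (fun j => s' (j + 1)) (pt_inj k s s' h).2
  funext n
  exact key n 0 s s' hss

/-- flip one digit -/
def flip (n : ℕ) (s : ℕ → Bool) : ℕ → Bool := fun j => if j = n then ! (s j) else s j

theorem pt_flip (n : ℕ) : ∀ k s, pt k (flip n s) - pt k s = - 2 * sg (s n) * b (k + n) := by
  induction n with
  | zero =>
    intro k s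
    rw [pt_succ k (flip 0 s), pt_succ k s]
    have e1 : (fun j => flip 0 s (j + 1)) = fun j => s (j + 1) := by
      funext j; simp [flip]
    rw [e1]
    cases hs : s 0 <;> simp [flip, hs, sg] <;> ring
  | succ n ih =>
    intro k s
    rw [pt_succ k (flip (n + 1) s), pt_succ k s]
    have e1 : (fun j => flip (n + 1) s (j + 1)) = flip n (fun j => s (j + 1)) := by
      funext j; simp [flip]
    have e2 : flip (n + 1) s 0 = s 0 := by simp [flip]
    rw [e1, e2]
    have h1 := ih (k + 1) (fun j => s (j + 1))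
    have e : k + (n + 1) = k + 1 + n := by ring
    rw [e]
    linarith

theorem R_le_pow : ∀ n, R n ≤ (1 / 8) ^ n
  | 0 => by simp [R]
  | (n + 1) => by
    rw [R_succ, pow_succ]
    have := rho_lt n
    have := R_le_pow n
    linarith

theorem not_diff (s : ℕ → Bool) : ¬ DifferentiableAt ℝ (F hp) ((pt 0 s : ℝ) : ℂ) := by
  rintro ⟨T, hT⟩
  have hT' := hT.isLittleO
  rw [Asymptotics.isLittleO_iff] at hT'
  have h1 := hT' (show (0 : ℝ) < 1 / 8 by norm_num)
  rw [Metric.eventually_nhds_iff] at h1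
  obtain ⟨δ, hδ, hball⟩ := h1
  -- choose a deep level
  obtain ⟨n, hn⟩ : ∃ n : ℕ, 3 * (1 / 8 : ℝ) ^ n < δ := by
    obtain ⟨n, hn⟩ := exists_pow_lt_of_lt_one (show 0 < δ / 3 by positivity)
      (show (1 / 8 : ℝ) < 1 by norm_num)
    exact ⟨n, by linarith⟩
  have hRn := R_le_pow n
  have hrn := rho_lt n
  have hrp := rho_pos n
  have hbn : b n = rho n / 2 := rfl
  have hFp := F_pt prof_hp s
  -- first comparison
  have hx1 := hball (y := ((pt 0 (flip n s) : ℝ) : ℂ))
  rw [dist_eq_norm, F_pt prof_hp, hFp] at hx1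
  have e1 : ((pt 0 (flip n s) : ℝ) : ℂ) - ((pt 0 s : ℝ) : ℂ) =
      (((- 2 * sg (s n) * b n : ℝ)) : ℂ) := by
    rw [← Complex.ofReal_sub, pt_flip, Nat.zero_add]
  rw [e1] at hx1
  have e2 : ‖(((- 2 * sg (s n) * b n : ℝ)) : ℂ)‖ = 2 * b n := by
    rw [Complex.norm_real, Real.norm_eq_abs, abs_mul, abs_mul, sg_abs, abs_of_pos (b_pos n)]
    norm_num
  have e3 : ∀ t : ℝ, T (t : ℂ) = (t : ℂ) * T 1 := by
    intro t
    have : (t : ℂ) = t • (1 : ℂ) := by simp
    rw [this, T.map_smul]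
    simp
  rw [e2, e3] at hx1
  have hx1' := hx1 (by linarith)
  have e4 : (((- 2 * sg (s n) * b n : ℝ)) : ℂ) - (((- 2 * sg (s n) * b n : ℝ)) : ℂ) * T 1 =
      (((- 2 * sg (s n) * b n : ℝ)) : ℂ) * (1 - T 1) := by ring
  rw [e4, norm_mul, e2] at hx1'
  have hbp := b_pos n
  have hT1 : ‖1 - T 1‖ ≤ 1 / 8 := by
    by_contra hcon
    push Not at hcon
    nlinarith
  -- second comparison
  obtain ⟨q, hq⟩ : ∃ q, q = Real.exp ((Real.log (rho n) + Real.log (R n)) / 2) := ⟨_, rfl⟩
  have hlog : Real.log (rho n) < Real.log (R n) := Real.log_lt_log hrp hrn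
  have hq1 : rho n < q := by
    rw [hq, ← Real.log_lt_iff_lt_exp hrp]; linarith
  have hq2 : q < R n := by
    rw [hq]
    conv_rhs => rw [← Real.exp_log (R_pos n)]
    exact Real.exp_lt_exp.mpr (by linarith)
  have hqpos : 0 < q := lt_trans hrp hq1
  have hin : InAnn n (cen 0 n s) (((cen 0 n s + q : ℝ)) : ℂ) := by
    refine ⟨cent_cen n 0 s, ?_, ?_⟩
    · rw [← Complex.ofReal_sub, Complex.norm_real, Real.norm_eq_abs]
      have : cen 0 n s + q - cen 0 n s = q := by ring
      rw [this, abs_of_pos hqpos]; exact hq1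
    · rw [← Complex.ofReal_sub, Complex.norm_real, Real.norm_eq_abs]
      have : cen 0 n s + q - cen 0 n s = q := by ring
      rw [this, abs_of_pos hqpos]; exact hq2
  have hF := F_in prof_hp hin
  have e5 : (((cen 0 n s + q : ℝ)) : ℂ) - ((cen 0 n s : ℝ) : ℂ) = ((q : ℝ) : ℂ) := by
    push_cast; ring
  rw [e5] at hF
  have e6 : ex hp n ((q : ℝ) : ℂ) = Real.exp 1 := by
    unfold ex
    rw [Complex.norm_real, Real.norm_eq_abs, abs_of_pos hqpos, hq, Real.log_exp]
    unfold hp
    have e7 : ((Real.log (rho n) + Real.log (R n)) / 2 - Real.log (rho n)) / 2 ^ (n + 6) =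
        1 / 2 := by
      rw [log_R]
      have : (0 : ℝ) < 2 ^ (n + 6) := by positivity
      field_simp
      ring
    rw [e7]
    have e8 : th (1 / 2) = 1 := by unfold th; norm_num
    rw [e8]
  rw [e6] at hF
  obtain ⟨d, hd⟩ : ∃ d, d = cen 0 n s - pt 0 s := ⟨_, rfl⟩
  have hd1 : |d| ≤ rho n := by
    have := pt_sub_cen n 0 s
    rw [Nat.zero_add] at this
    rw [hd, abs_sub_comm]
    linarith
  have hx2 := hball (y := ((cen 0 n s + q : ℝ) : ℂ))
  rw [dist_eq_norm, hF, hFp] at hx2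
  have e8 : (((cen 0 n s + q : ℝ)) : ℂ) - ((pt 0 s : ℝ) : ℂ) = ((q + d : ℝ) : ℂ) := by
    rw [hd]; push_cast; ring
  rw [e8, e3] at hx2
  have hd2 := abs_le.mp hd1
  have e9 : ‖((q + d : ℝ) : ℂ)‖ ≤ 2 * q := by
    rw [Complex.norm_real, Real.norm_eq_abs]
    have := abs_add_le q d
    rw [abs_of_pos hqpos] at this
    linarith
  have hx2' := hx2 (by linarith)
  have e10 : ((cen 0 n s : ℝ) : ℂ) + ((Real.exp 1 : ℝ) : ℂ) * ((q : ℝ) : ℂ) - ((pt 0 s : ℝ) : ℂ) -
      ((q + d : ℝ) : ℂ) * T 1 =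
      (((Real.exp 1 - 1) * q : ℝ) : ℂ) + ((q + d : ℝ) : ℂ) * (1 - T 1) := by
    rw [hd]; push_cast; ring
  rw [e10] at hx2'
  have e11 : (Real.exp 1 - 1) * q ≤
      ‖(((Real.exp 1 - 1) * q : ℝ) : ℂ) + ((q + d : ℝ) : ℂ) * (1 - T 1)‖ +
      ‖((q + d : ℝ) : ℂ) * (1 - T 1)‖ := by
    have h2 := norm_sub_le ((((Real.exp 1 - 1) * q : ℝ) : ℂ) + ((q + d : ℝ) : ℂ) * (1 - T 1))
      (((q + d : ℝ) : ℂ) * (1 - T 1))
    have h3 : (((Real.exp 1 - 1) * q : ℝ) : ℂ) + ((q + d : ℝ) : ℂ) * (1 - T 1) -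
      ((q + d : ℝ) : ℂ) * (1 - T 1) = (((Real.exp 1 - 1) * q : ℝ) : ℂ) := by ring
    rw [h3, Complex.norm_real, Real.norm_eq_abs] at h2
    exact (le_abs_self _).trans h2
  have e12 : ‖((q + d : ℝ) : ℂ) * (1 - T 1)‖ ≤ 2 * q * (1 / 8) := by
    rw [norm_mul]
    exact mul_le_mul e9 hT1 (norm_nonneg _) (by positivity)
  have e13 : (2.7182818283 : ℝ) < Real.exp 1 := Real.exp_one_gt_d9
  nlinarith

theorem uncountable_nondiff : ¬ {p : ℂ | ¬ DifferentiableAt ℝ (F hp) p}.Countable := by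
  intro hc
  have h1 : Function.Injective (fun s : ℕ → Bool => ((pt 0 s : ℝ) : ℂ)) := by
    intro s s' hss
    exact pt_injective (Complex.ofReal_injective hss)
  have h2 := hc.preimage_of_injOn (f := fun s : ℕ → Bool => ((pt 0 s : ℝ) : ℂ)) h1.injOn
  have h3 : (fun s : ℕ → Bool => ((pt 0 s : ℝ) : ℂ)) ⁻¹' {p : ℂ | ¬ DifferentiableAt ℝ (F hp) p} =
      Set.univ := by
    ext s
    simp [not_diff s]
  rw [h3, Set.countable_univ_iff] at h2
  obtain ⟨f, hf⟩ := h2.exists_injective_nat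
  classical
  apply Function.cantor_injective (fun S : Set ℕ => f (fun n => decide (n ∈ S)))
  intro S S' hSS
  have h4 := hf hSS
  ext n
  have := congrFun h4 n
  simpa using this

end Pool.Agent.H77DF
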